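import Mathlib

/-!
# The `C_k`-stable closure of the class of separable metrizable spaces has no universal space

Every space in the closure has a countable `k`-network (Michael), hence at most continuum many points and
at most continuum many sequences. For a subset `X` of the Cantor set restrict all continuous functions of
a fixed sequence `q` (dense in `C(2^ω)`) to `X` and view them in `C_k(X)`. The topology which this induces
on the natural numbers determines `X`. If all the spaces `C_k(X)` embed into `U`, one gets an injection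
of the set of all subsets of the Cantor set into the set of all sequences in `U`, which is impossible.
-/

set_option autoImplicit false

open Set Topology Filter TopologicalSpace MeasureTheory

namespace Pool.Agent.Results.MP_a55298_gt.NoUniversal

/-- `P` is a `C_k`-stable class of regular `T_1` spaces: closed under subspaces and homeomorphic images
(that is, under the passage to any space which embeds into a member), countable topological sums,
countable Tychonoff products, and the function spaces `C_k(X, Y)` with `X` Lindelöf -/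
structure CkStable (P : ∀ (X : Type) [TopologicalSpace X], Prop) : Prop where
  regular : ∀ (X : Type) [TopologicalSpace X], P X → T3Space X
  embed : ∀ (X Y : Type) [TopologicalSpace X] [TopologicalSpace Y] (f : X → Y),
    IsEmbedding f → P Y → P X
  sum : ∀ (ι : Type) [Countable ι] (X : ι → Type) [∀ i, TopologicalSpace (X i)],
    (∀ i, P (X i)) → P (Σ i, X i)
  prod : ∀ (ι : Type) [Countable ι] (X : ι → Type) [∀ i, TopologicalSpace (X i)],
    (∀ i, P (X i)) → P (∀ i, X i)
  map : ∀ (X Y : Type) [TopologicalSpace X] [TopologicalSpace Y], P X → P Y → LindelofSpace X →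
    P C(X, Y)

/-- the `C_k`-stable closure of a class `Q` of spaces -/
def CkClosure (Q : ∀ (X : Type) [TopologicalSpace X], Prop) (X : Type) [TopologicalSpace X] : Prop :=
  ∀ P : (∀ (X : Type) [TopologicalSpace X], Prop), CkStable P →
    (∀ (Z : Type) [TopologicalSpace Z], Q Z → P Z) → P X

/-- the class of separable metrizable spaces -/
def SepMetr (X : Type) [TopologicalSpace X] : Prop := MetrizableSpace X ∧ SeparableSpace X

/-! ### spaces with countable `k`-networks -/

/-- regular `T_1` spaces with a countable `k`-network -/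
def KN (X : Type) [TopologicalSpace X] : Prop :=
  T3Space X ∧ ∃ N : Set (Set X), N.Countable ∧ IsSetAlgebra N ∧
    ∀ K, IsCompact K → ∀ U, IsOpen U → K ⊆ U → ∃ A ∈ N, K ⊆ A ∧ A ⊆ U

theorem kn_of_subbase {X : Type} [t : TopologicalSpace X] [T3Space X] (B S : Set (Set X))
    (hB : t = generateFrom B) (hS : S.Countable)
    (h : ∀ U ∈ B, ∀ K, IsCompact K → K ⊆ U → ∃ A ∈ generateSetAlgebra S, K ⊆ A ∧ A ⊆ U) : KN X := by
  refine ⟨inferInstance, generateSetAlgebra S, countable_generateSetAlgebra hS,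
    isSetAlgebra_generateSetAlgebra, ?_⟩
  have hA : IsSetAlgebra (generateSetAlgebra S) := isSetAlgebra_generateSetAlgebra
  intro K hK U hU hKU
  have hU' : GenerateOpen B U := by
    have := hU
    rw [hB] at this
    exact this
  clear hU
  induction hU' generalizing K with
  | basic s hs => exact h s hs K hK hKU
  | univ => exact ⟨univ, hA.univ_mem, subset_univ _, subset_univ _⟩
  | inter s t _ _ ihs iht =>
    obtain ⟨A, hA1, hA2, hA3⟩ := ihs K hK (hKU.trans inter_subset_left)
    obtain ⟨A', hA1', hA2', hA3'⟩ := iht K hK (hKU.trans inter_subset_right)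
    exact ⟨A ∩ A', hA.inter_mem hA1 hA1', subset_inter hA2 hA2', inter_subset_inter hA3 hA3'⟩
  | sUnion F hF ih =>
    have hFo : ∀ V : F, IsOpen (V : Set X) := by
      intro V
      have := hF V V.2
      have h2 : IsOpen[generateFrom B] (V : Set X) := this
      rw [← hB] at h2
      exact h2
    obtain ⟨s, hs⟩ := hK.elim_finite_subcover (fun V : F => (V : Set X)) hFo (by
      rw [sUnion_eq_iUnion] at hKU
      exact hKU)
    obtain ⟨L, hL, hLV, hKL⟩ := hK.finite_compact_cover s (fun V : F => (V : Set X))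
      (fun V _ => hFo V) hs
    have h1 : ∀ V : F, ∃ A ∈ generateSetAlgebra S, L V ⊆ A ∧ A ⊆ (V : Set X) := fun V =>
      ih V V.2 (L V) (hL V) (hLV V)
    choose A hA1 hA2 hA3 using h1
    refine ⟨⋃ V ∈ s, A V, ?_, ?_, ?_⟩
    · exact hA.biUnion_mem s fun V _ => hA1 V
    · rw [hKL]
      exact iUnion₂_mono fun V _ => hA2 V
    · exact iUnion₂_subset fun V _ => (hA3 V).trans (subset_sUnion_of_mem V.2)

theorem KN.embed {X Y : Type} [TopologicalSpace X] [TopologicalSpace Y] {f : X → Y}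
    (hf : IsEmbedding f) (hY : KN Y) : KN X := by
  obtain ⟨hT, N, hN, hNA, h⟩ := hY
  have : T3Space X := hf.t3Space
  refine ⟨this, (fun A => f ⁻¹' A) '' N, hN.image _, ⟨⟨∅, hNA.empty_mem, rfl⟩, ?_, ?_⟩, ?_⟩
  · rintro _ ⟨A, hA, rfl⟩
    exact ⟨Aᶜ, hNA.compl_mem hA, rfl⟩
  · rintro _ _ ⟨A, hA, rfl⟩ ⟨A', hA', rfl⟩
    exact ⟨A ∪ A', hNA.union_mem hA hA', rfl⟩
  · intro K hK U hU hKU
    obtain ⟨V, hV, rfl⟩ := hf.isOpen_iff.1 hU
    obtain ⟨A, hA, h1, h2⟩ := h (f '' K) (hK.image hf.continuous) V hV (image_subset_iff.2 hKU)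
    exact ⟨f ⁻¹' A, ⟨A, hA, rfl⟩, image_subset_iff.1 h1, preimage_mono h2⟩

theorem KN.pi {ι : Type} [Countable ι] {X : ι → Type} [∀ i, TopologicalSpace (X i)]
    (h : ∀ i, KN (X i)) : KN (∀ i, X i) := by
  have hT : ∀ i, T3Space (X i) := fun i => (h i).1
  choose _ N hN hNA hNk using h
  refine kn_of_subbase {s | ∃ i, ∃ U : Set (X i), IsOpen U ∧ s = Function.eval i ⁻¹' U}
    (⋃ i, (fun A => Function.eval i ⁻¹' A) '' N i) ?_ (countable_iUnion fun i => (hN i).image _) ?_
  · refine le_antisymm (le_generateFrom ?_) ?_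
    · rintro _ ⟨i, U, hU, rfl⟩
      exact hU.preimage (continuous_apply i)
    · refine le_iInf fun i s hs => ?_
      obtain ⟨U, hU, rfl⟩ := isOpen_induced_iff.1 hs
      exact GenerateOpen.basic _ ⟨i, U, hU, rfl⟩
  · rintro _ ⟨i, U, hU, rfl⟩ K hK hKU
    obtain ⟨A, hA, h1, h2⟩ := hNk i (Function.eval i '' K) (hK.image (continuous_apply i)) U hU
      (image_subset_iff.2 hKU)
    exact ⟨Function.eval i ⁻¹' A, self_subset_generateSetAlgebra
      (mem_iUnion.2 ⟨i, A, hA, rfl⟩), image_subset_iff.1 h1, preimage_mono h2⟩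

theorem t3_sigma {ι : Type} {X : ι → Type} [∀ i, TopologicalSpace (X i)] (h : ∀ i, T3Space (X i)) :
    T3Space (Σ i, X i) := by
  have : RegularSpace (Σ i, X i) := by
    refine RegularSpace.of_exists_mem_nhds_isClosed_subset ?_
    rintro ⟨i, a⟩ s hs
    have h1 : Sigma.mk i ⁻¹' s ∈ 𝓝 a := continuous_sigmaMk.continuousAt hs
    obtain ⟨t, ht, htc, hts⟩ := exists_mem_nhds_isClosed_subset h1
    refine ⟨Sigma.mk i '' t, IsOpenEmbedding.sigmaMk.image_mem_nhds.2 ht,
      IsClosedEmbedding.sigmaMk.isClosedMap _ htc, image_subset_iff.2 hts⟩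
  exact ⟨⟩

theorem KN.sigma {ι : Type} [Countable ι] {X : ι → Type} [∀ i, TopologicalSpace (X i)]
    (h : ∀ i, KN (X i)) : KN (Σ i, X i) := by
  have hT : T3Space (Σ i, X i) := t3_sigma fun i => (h i).1
  choose _ N hN hNA hNk using h
  refine kn_of_subbase {s | ∃ i, ∃ U : Set (X i), IsOpen U ∧ s = Sigma.mk i '' U}
    (⋃ i, (fun A => Sigma.mk i '' A) '' N i) ?_ (countable_iUnion fun i => (hN i).image _) ?_
  · refine le_antisymm (le_generateFrom ?_) ?_
    · rintro _ ⟨i, U, hU, rfl⟩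
      exact IsOpenEmbedding.sigmaMk.isOpenMap _ hU
    · intro s hs
      have h1 : s = ⋃₀ {u | ∃ i, u = Sigma.mk i '' (Sigma.mk i ⁻¹' s)} := by
        ext ⟨i, a⟩
        constructor
        · intro h
          exact ⟨_, ⟨i, rfl⟩, a, h, rfl⟩
        · rintro ⟨_, ⟨j, rfl⟩, b, hb, hab⟩
          rw [← hab]
          exact hb
      rw [h1]
      refine GenerateOpen.sUnion _ ?_
      rintro _ ⟨i, rfl⟩
      exact GenerateOpen.basic _ ⟨i, _, hs.preimage continuous_sigmaMk, rfl⟩
  · rintro _ ⟨i, U, hU, rfl⟩ K hK hKU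
    obtain ⟨A, hA, h1, h2⟩ := hNk i (Sigma.mk i ⁻¹' K)
      (IsClosedEmbedding.sigmaMk.isCompact_preimage hK) U hU (by
        intro a ha
        obtain ⟨b, hb, hab⟩ := hKU ha
        rwa [sigma_mk_injective hab] at hb)
    refine ⟨Sigma.mk i '' A, self_subset_generateSetAlgebra (mem_iUnion.2 ⟨i, A, hA, rfl⟩), ?_,
      image_mono h2⟩
    intro z hz
    obtain ⟨b, hb, rfl⟩ := hKU hz
    exact ⟨b, h1 hz, rfl⟩

section ck

variable {X Y : Type} [TopologicalSpace X] [TopologicalSpace Y]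

/-- a compact set together with a sequence which is eventually in each neighbourhood of it -/
theorem compact_union_range {C : Set X} (hC : IsCompact C) {x : ℕ → X}
    (hx : ∀ W, IsOpen W → C ⊆ W → ∃ k, ∀ n ≥ k, x n ∈ W) : IsCompact (C ∪ range x) := by
  refine isCompact_of_finite_subcover fun {ι} U hU hCU => ?_
  obtain ⟨t, ht⟩ := hC.elim_finite_subcover U hU (subset_union_left.trans hCU)
  obtain ⟨k, hk⟩ := hx (⋃ i ∈ t, U i) (isOpen_biUnion fun i _ => hU i) ht
  have h1 : (x '' (Finset.range k : Set ℕ)).Finite := (Finset.finite_toSet _).image _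
  obtain ⟨t', ht'⟩ := h1.isCompact.elim_finite_subcover U hU (by
    rintro _ ⟨n, _, rfl⟩
    exact hCU (Or.inr ⟨n, rfl⟩))
  classical
  refine ⟨t ∪ t', ?_⟩
  rintro z (hz | ⟨n, rfl⟩)
  · obtain ⟨i, hi, hz'⟩ := mem_iUnion₂.1 (ht hz)
    exact mem_iUnion₂.2 ⟨i, Finset.mem_union_left _ hi, hz'⟩
  · by_cases hn : n < k
    · obtain ⟨i, hi, hz'⟩ := mem_iUnion₂.1 (ht' ⟨n, by simpa using hn, rfl⟩)
      exact mem_iUnion₂.2 ⟨i, Finset.mem_union_right _ hi, hz'⟩
    · obtain ⟨i, hi, hz'⟩ := mem_iUnion₂.1 (hk n (not_lt.1 hn))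
      exact mem_iUnion₂.2 ⟨i, Finset.mem_union_left _ hi, hz'⟩

/-- the union of the images of a compact set under a compact family of maps is compact -/
theorem compact_eval [T2Space X] {F : Set C(X, Y)} (hF : IsCompact F) {C : Set X}
    (hC : IsCompact C) : IsCompact {y | ∃ f ∈ F, ∃ z ∈ C, f z = y} ∧
      ∀ (D : Set X), D ⊆ C → IsCompact D → ∀ V : Set Y, IsOpen V → (∀ f ∈ F, MapsTo f D V) →
        ∃ W, IsOpen W ∧ D ⊆ W ∧ ∀ f ∈ F, ∀ z ∈ C, z ∈ W → f z ∈ V := by
  have : CompactSpace C := isCompact_iff_compactSpace.1 hC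
  let e : C(X, Y) × C → Y := fun p => (p.1.restrict C) p.2
  have he : Continuous e := by
    have h1 : Continuous fun p : C(X, Y) × C => (p.1.restrict C, p.2) :=
      ((ContinuousMap.continuous_restrict C).comp continuous_fst).prodMk continuous_snd
    exact continuous_eval.comp h1
  constructor
  · have h1 : IsCompact (e '' (F ×ˢ univ)) := (hF.prod isCompact_univ).image he
    convert h1 using 1
    ext y
    constructor
    · rintro ⟨f, hf, z, hz, rfl⟩
      exact ⟨(f, ⟨z, hz⟩), ⟨hf, mem_univ _⟩, rfl⟩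
    · rintro ⟨⟨f, z⟩, ⟨hf, _⟩, rfl⟩
      exact ⟨f, hf, z, z.2, rfl⟩
  · intro D hDC hD V hV h
    have hD' : IsCompact ((Subtype.val : C → X) ⁻¹' D) :=
      (hC.isClosed.isClosedEmbedding_subtypeVal).isCompact_preimage hD
    obtain ⟨u, v, hu, hv, hFu, hDv, huv⟩ := generalized_tube_lemma hF hD' (hV.preimage he) (by
      rintro ⟨f, z⟩ ⟨hf, hz⟩
      exact h f hf hz)
    obtain ⟨W, hW, rfl⟩ := isOpen_induced_iff.1 hv
    refine ⟨W, hW, ?_, ?_⟩
    · intro z hz
      exact hDv (a := ⟨z, hDC hz⟩) hz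
    · intro f hf z hz hzW
      exact huv (a := (f, ⟨z, hz⟩)) ⟨hFu hf, hzW⟩

theorem ck_step [T2Space X] {N : Set (Set X)} (hN : N.Countable) (hNA : IsSetAlgebra N)
    (hNk : ∀ K, IsCompact K → ∀ U, IsOpen U → K ⊆ U → ∃ A ∈ N, K ⊆ A ∧ A ⊆ U)
    {M : Set (Set Y)} (hM : M.Countable) (hMA : IsSetAlgebra M)
    (hMk : ∀ K, IsCompact K → ∀ U, IsOpen U → K ⊆ U → ∃ A ∈ M, K ⊆ A ∧ A ⊆ U)
    {F : Set C(X, Y)} (hF : IsCompact F) {C : Set X} (hC : IsCompact C) {V : Set Y} (hV : IsOpen V)
    (h : ∀ f ∈ F, MapsTo f C V) :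
    ∃ A ∈ N, ∃ B ∈ M, (∀ f ∈ F, MapsTo f A B) ∧ C ⊆ A ∧ B ⊆ V := by
  obtain ⟨a, ha⟩ := (hN.mono (sep_subset N fun A => C ⊆ A)).exists_eq_range
    ⟨univ, hNA.univ_mem, subset_univ C⟩
  obtain ⟨m, hm⟩ := (hM.mono (sep_subset M fun A => A ⊆ V)).exists_eq_range
    ⟨∅, hMA.empty_mem, empty_subset V⟩
  have ha' : ∀ n, a n ∈ N ∧ C ⊆ a n := fun n => by
    have : a n ∈ {A | A ∈ N ∧ C ⊆ A} := by
      rw [ha]
      exact mem_range_self n
    exact this
  have hm' : ∀ n, m n ∈ M ∧ m n ⊆ V := fun n => by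
    have : m n ∈ {A | A ∈ M ∧ A ⊆ V} := by
      rw [hm]
      exact mem_range_self n
    exact this
  let A : ℕ → Set X := fun n => ⋂ i ∈ Finset.range (n + 1), a i
  let P : ℕ → Set Y := fun n => ⋃ i ∈ Finset.range (n + 1), m i
  have hAN : ∀ n, A n ∈ N := fun n => hNA.biInter_mem _ fun i _ => (ha' i).1
  have hPM : ∀ n, P n ∈ M := fun n => hMA.biUnion_mem _ fun i _ => (hm' i).1
  have hCA : ∀ n, C ⊆ A n := fun n => subset_iInter₂ fun i _ => (ha' i).2
  have hPV : ∀ n, P n ⊆ V := fun n => iUnion₂_subset fun i _ => (hm' i).2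
  have hAa : ∀ k n, k ≤ n → A n ⊆ a k := fun k n hkn =>
    biInter_subset_of_mem (by simpa using Nat.lt_succ_of_le hkn)
  have hmP : ∀ k n, k ≤ n → m k ⊆ P n := fun k n hkn =>
    subset_biUnion_of_mem (u := m) (by simpa using Nat.lt_succ_of_le hkn)
  by_contra hcon
  have h1 : ∀ n, ∃ f ∈ F, ∃ x ∈ A n, f x ∉ P n := by
    intro n
    by_contra h2
    push Not at h2
    exact hcon ⟨A n, hAN n, P n, hPM n, fun f hf x hx => h2 f hf x hx, hCA n, hPV n⟩
  choose f hfF x hxA hfx using h1
  have hout : ∀ W, IsOpen W → C ⊆ W → ∃ k, ∀ n ≥ k, A n ⊆ W := by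
    intro W hW hCW
    obtain ⟨A', hA', h2, h3⟩ := hNk C hC W hW hCW
    have h4 : A' ∈ range a := by
      rw [← ha]
      exact ⟨hA', h2⟩
    obtain ⟨k, rfl⟩ := h4
    exact ⟨k, fun n hn => (hAa k n hn).trans h3⟩
  have hcomp : ∀ r : ℕ, IsCompact (C ∪ range fun n => x (n + r)) := by
    intro r
    refine compact_union_range hC fun W hW hCW => ?_
    obtain ⟨k, hk⟩ := hout W hW hCW
    exact ⟨k, fun n hn => hk (n + r) (by omega) (hxA _)⟩
  obtain ⟨W, hW, hCW, hWV⟩ := (compact_eval hF (hcomp 0)).2 C subset_union_left hC V hV h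
  obtain ⟨r, hr⟩ := hout W hW hCW
  have h2 : ∀ g ∈ F, ∀ z ∈ C ∪ range (fun n => x (n + r)), g z ∈ V := by
    rintro g hg z (hz | ⟨n, rfl⟩)
    · exact h g hg hz
    · exact hWV g hg _ (Or.inr ⟨n + r, rfl⟩) (hr (n + r) (by omega) (hxA _))
  obtain ⟨B, hB, hB1, hB2⟩ := hMk _ (compact_eval hF (hcomp r)).1 V hV (by
    rintro _ ⟨g, hg, z, hz, rfl⟩
    exact h2 g hg z hz)
  have h3 : B ∈ range m := by
    rw [← hm]
    exact ⟨hB, hB2⟩
  obtain ⟨k, rfl⟩ := h3
  refine hfx (k + r) (hmP k (k + r) (by omega) (hB1 ⟨f (k + r), hfF _, x (k + r), ?_, rfl⟩))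
  exact Or.inr ⟨k, rfl⟩

theorem KN.map (hX : KN X) (hY : KN Y) : KN C(X, Y) := by
  obtain ⟨hT, N, hN, hNA, hNk⟩ := hX
  obtain ⟨hT', M, hM, hMA, hMk⟩ := hY
  refine kn_of_subbase (image2 (fun K U => {f : C(X, Y) | MapsTo f K U}) {K | IsCompact K}
    {U | IsOpen U}) (image2 (fun A B => {f : C(X, Y) | MapsTo f A B}) N M)
    ContinuousMap.compactOpen_eq (hN.image2 hM _) ?_
  rintro _ ⟨C, hC, V, hV, rfl⟩ F hF hFC
  obtain ⟨A, hA, B, hB, h1, h2, h3⟩ := ck_step hN hNA hNk hM hMA hMk hF hC hV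
    (fun f hf => hFC hf)
  exact ⟨_, self_subset_generateSetAlgebra ⟨A, hA, B, hB, rfl⟩, h1,
    fun f hf => MapsTo.mono (show MapsTo f A B from hf) h2 h3⟩

end ck

theorem KN.of_sepMetr {X : Type} [TopologicalSpace X] (h : SepMetr X) : KN X := by
  obtain ⟨h1, h2⟩ := h
  have h3 : SecondCountableTopology X := by
    let _ := metrizableSpaceMetric X
    exact UniformSpace.secondCountable_of_separable X
  exact kn_of_subbase (countableBasis X) (countableBasis X)
    (isBasis_countableBasis X).eq_generateFrom (countable_countableBasis X)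
    fun U hU K _ hKU => ⟨U, self_subset_generateSetAlgebra hU, hKU, Subset.rfl⟩

/-- the class of regular `T_1` spaces with countable `k`-networks is `C_k`-stable -/
theorem kn_stable : CkStable @KN where
  regular _ _ h := h.1
  embed _ _ _ _ _ hf h := h.embed hf
  sum _ _ _ _ h := KN.sigma h
  prod _ _ _ _ h := KN.pi h
  map _ _ _ _ h1 h2 _ := h1.map h2

/-- a space in the closure has at most continuum many points -/
theorem exists_injective_of_kn {X : Type} [TopologicalSpace X] (h : KN X) :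
    ∃ j : X → ℕ → Bool, Function.Injective j := by
  obtain ⟨hT, N, hN, hNA, hNk⟩ := h
  obtain ⟨a, ha⟩ := hN.exists_eq_range ⟨∅, hNA.empty_mem⟩
  classical
  refine ⟨fun x n => decide (x ∈ a n), fun x y hxy => ?_⟩
  by_contra hne
  obtain ⟨A, hA, h1, h2⟩ := hNk {x} isCompact_singleton {y}ᶜ isOpen_compl_singleton
    (by
      rintro _ rfl
      exact hne)
  rw [ha] at hA
  obtain ⟨n, rfl⟩ := hA
  have h3 := congrFun hxy n
  simp only [decide_eq_decide] at h3
  exact h2 (h3.1 (h1 rfl)) rfl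

/-- an open set of a function space is determined, near a point, by a compact set -/
theorem exists_compact_of_isOpen {Y Z : Type} [TopologicalSpace Y] [TopologicalSpace Z]
    {O : Set C(Y, Z)} (hO : IsOpen O) {h : C(Y, Z)} (hh : h ∈ O) :
    ∃ K : Set Y, IsCompact K ∧ ∀ h' : C(Y, Z), EqOn h' h K → h' ∈ O := by
  have hO' : GenerateOpen (image2 (fun K U => {f : C(Y, Z) | MapsTo f K U}) {K | IsCompact K}
    {U | IsOpen U}) O := hO
  clear hO
  induction hO' with
  | basic s hs =>
    obtain ⟨K, hK, U, hU, rfl⟩ := hs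
    refine ⟨K, hK, fun h' hh' x hx => ?_⟩
    rw [hh' hx]
    exact hh hx
  | univ => exact ⟨∅, isCompact_empty, fun _ _ => mem_univ _⟩
  | inter s t _ _ ihs iht =>
    obtain ⟨K, hK, h1⟩ := ihs hh.1
    obtain ⟨L, hL, h2⟩ := iht hh.2
    exact ⟨K ∪ L, hK.union hL, fun h' hh' => ⟨h1 h' (hh'.mono subset_union_left),
      h2 h' (hh'.mono subset_union_right)⟩⟩
  | sUnion F _ ih =>
    obtain ⟨s, hs, hhs⟩ := hh
    obtain ⟨K, hK, h1⟩ := ih s hs hhs
    exact ⟨K, hK, fun h' hh' => ⟨s, hs, h1 h' hh'⟩⟩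

/-- the closure contains all `C_k(X)` with `X` a set in the Cantor space -/
theorem ck_mem (X : Set (ℕ → Bool)) : CkClosure @SepMetr C(X, ℝ) := by
  intro P hP hZ
  refine hP.map X ℝ (hZ _ ⟨inferInstance, inferInstance⟩) (hZ _ ⟨inferInstance, inferInstance⟩)
    inferInstance

/-- **There is no universal space in the `C_k`-stable closure of the class of all separable metrizable
spaces.** -/
theorem result : ∀ (U : Type) [TopologicalSpace U], CkClosure @SepMetr U →
    ∃ (Z : Type) (_ : TopologicalSpace Z), CkClosure @SepMetr Z ∧ ¬ ∃ f : Z → U, IsEmbedding f := by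
  intro U _ hU
  by_contra hcon
  push Not at hcon
  obtain ⟨j, hj⟩ := exists_injective_of_kn (hU @KN kn_stable fun Z _ hZ => KN.of_sepMetr hZ)
  have h1 : ∀ X : Set (ℕ → Bool), ∃ f : C(X, ℝ) → U, IsEmbedding f := fun X =>
    hcon C(X, ℝ) inferInstance (ck_mem X)
  choose f hf using h1
  -- a dense sequence in `C(2^ω)`
  let q : ℕ → C(ℕ → Bool, ℝ) := denseSeq C(ℕ → Bool, ℝ)
  have hq : DenseRange q := denseRange_denseSeq _
  let g : Set (ℕ → Bool) → ℕ → U := fun X n => f X ((q n).restrict X)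
  -- the sequence `g X` determines the open sets of the trace topology
  have h2 : ∀ X Y : Set (ℕ → Bool), g X = g Y → X ⊆ Y := by
    intro X Y hXY x hx
    by_contra hxY
    -- the open set of all functions which are small at `x`
    have h3 : IsOpen {h : C(X, ℝ) | |h ⟨x, hx⟩| < 1 / 2} := by
      have : Continuous fun h : C(X, ℝ) => |h ⟨x, hx⟩| :=
        continuous_abs.comp (continuous_eval_const _)
      exact isOpen_lt this continuous_const
    obtain ⟨V, hV, hV2⟩ := (hf X).isOpen_iff.1 h3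
    have h4 : IsOpen (f Y ⁻¹' V) := hV.preimage (hf Y).continuous
    have h5 : ∀ n, (q n).restrict Y ∈ f Y ⁻¹' V ↔ |q n x| < 1 / 2 := by
      intro n
      have h6 : (q n).restrict X ∈ f X ⁻¹' V ↔ |q n x| < 1 / 2 := by
        rw [hV2]
        exact Iff.rfl
      have h7 : f Y ((q n).restrict Y) = f X ((q n).restrict X) := (congrFun hXY n).symm
      rw [mem_preimage, h7]
      exact h6
    -- a member of the sequence which is small at `x`
    have h6 : IsOpen {c : C(ℕ → Bool, ℝ) | |c x| < 1 / 2} :=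
      isOpen_lt (continuous_abs.comp (continuous_eval_const x)) continuous_const
    obtain ⟨n, hn⟩ := hq.exists_mem_open h6 ⟨0, by simp⟩
    obtain ⟨K, hK, hKO⟩ := exists_compact_of_isOpen h4 ((h5 n).2 hn)
    -- modify it at `x`
    have hK' : IsCompact ((Subtype.val : Y → (ℕ → Bool)) '' K) := hK.image continuous_subtype_val
    have hxK : Disjoint ((Subtype.val : Y → (ℕ → Bool)) '' K) {x} := by
      rw [disjoint_singleton_right]
      rintro ⟨y, _, rfl⟩
      exact hxY y.2
    obtain ⟨φ, hφ0, hφ1, _⟩ := exists_continuous_zero_one_of_isClosed hK'.isClosed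
      isClosed_singleton hxK
    let c : C(ℕ → Bool, ℝ) := q n + (2 - q n x) • φ
    have hcx : c x = 2 := by
      have : φ x = 1 := hφ1 rfl
      simp [c, this]
    have hcO : c.restrict Y ∈ f Y ⁻¹' V := by
      refine hKO _ fun y hy => ?_
      have : φ (y : ℕ → Bool) = 0 := hφ0 ⟨y, hy, rfl⟩
      simp [c, this]
    -- find a member of the sequence near the modified function
    have h7a : IsOpen {c : C(ℕ → Bool, ℝ) | c.restrict Y ∈ f Y ⁻¹' V} :=
      h4.preimage (ContinuousMap.continuous_restrict Y)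
    have h7b : IsOpen {c : C(ℕ → Bool, ℝ) | 1 < c x} :=
      isOpen_lt continuous_const (continuous_eval_const x)
    have h7 : IsOpen {c : C(ℕ → Bool, ℝ) | c.restrict Y ∈ f Y ⁻¹' V ∧ 1 < c x} := h7a.inter h7b
    obtain ⟨m, hm⟩ := hq.exists_mem_open h7 ⟨c, hcO, by
      rw [hcx]
      norm_num⟩
    have h8 := (h5 m).1 hm.1
    have h9 : 1 < q m x := hm.2
    have h10 := (abs_lt.1 h8).2
    linarith
  have h3 : Function.Injective g := fun X Y hXY =>
    Subset.antisymm (h2 X Y hXY) (h2 Y X hXY.symm)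
  let e : (ℕ → U) → (ℕ → Bool) := fun s n => j (s (Nat.unpair n).1) (Nat.unpair n).2
  have he : Function.Injective e := by
    intro s t hst
    funext n
    refine hj (funext fun m => ?_)
    have := congrFun hst (Nat.pair n m)
    simpa [e] using this
  exact Function.cantor_injective (fun X => e (g X)) (he.comp h3)

end Pool.Agent.Results.MP_a55298_gt.NoUniversal
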